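import Pool.Agent.Run7.h697.NN.Tail

/-!
# Q2: the number of uncovered vertices has heavy tails

Let `d ≥ 2 ^ 20`. There is `c > 0` such that for all `n ≥ 1`

* (1) `𝔼 |U_n| ≥ c n ^ (1 / (2 d + 16))`;
* (2) `ℙ (|U_n| ≥ y) ≥ c y ^ (-(2 d + 15))` for all `1 ≤ y ≤ c n ^ (1 / (2 d + 16))`: the tail of `|U_n|` is at least a power,
  uniformly in `n`.

(3) For all `C > 0` and `k ≥ 0` there is `c' > 0` such that for all large `n`
`ℙ (|U_n| ≤ C (log n) ^ k) ≤ 1 - c' (log n) ^ (-(2 d + 15) k)`: a bound by a power of `log n` fails with a probability that is at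
least a power of `1 / log n`.
(4) Hence the answer to Q2 is negative: for all `C`, `k` and all large `n` one has `ℙ (|U_n| ≤ C (log n) ^ k) < 1 - 1 / n`.

Proof of (2). `|U_m| ≤ m` and `|U_m| ≤ |U_n|` for `m ≤ n`; (1) is used at the least `m` for which it gives `𝔼 |U_m| ≥ 2 y`.
-/

set_option autoImplicit false

namespace Pool.Agent.Results.MP_959362_pr.HeavyTails

open MeasureTheory Filter Pool.Agent.T6.H59.NN

/-- See the header: `unc x n` is the set `U_n` of the uncovered vertices of the nearest neighbour tree of the points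
`x 0, ..., x (n - 1)` of the torus of dimension `d`, and `unif d` is the law of independent uniform points. -/
theorem result (d : ℕ) (hd : 2 ^ 20 ≤ d) :
    (∃ c : ℝ, 0 < c ∧
      -- (1) the expectation
      (∀ n : ℕ, 1 ≤ n → c * (n : ℝ) ^ (1 / (2 * (d : ℝ) + 16)) ≤ ∫ x, ((unc x n).card : ℝ) ∂(unif d)) ∧
      -- (2) the tail
      ∀ n : ℕ, 1 ≤ n → ∀ y : ℝ, 1 ≤ y → y ≤ c * (n : ℝ) ^ (1 / (2 * (d : ℝ) + 16)) →
        c / y ^ (2 * d + 15) ≤ (unif d).real {x | y ≤ ((unc x n).card : ℝ)}) ∧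
    -- (3) powers of the logarithm
    (∀ C k : ℝ, 0 < C → 0 ≤ k → ∃ c' : ℝ, 0 < c' ∧ ∀ᶠ n : ℕ in atTop,
      (unif d).real {x | ((unc x n).card : ℝ) ≤ C * Real.log n ^ k} ≤
        1 - c' / (Real.log n ^ k) ^ (2 * d + 15)) ∧
    -- (4) the answer to Q2
    (∀ C k : ℝ, ∀ᶠ n : ℕ in atTop,
      (unif d).real {x | ((unc x n).card : ℝ) ≤ C * Real.log n ^ k} < 1 - 1 / n) := by
  obtain ⟨c₁, hc₁, -, h1⟩ := Pool.Agent.Run7.h697.NN.power_explicit hd
  obtain ⟨c₂, hc₂, h2⟩ := Pool.Agent.Run7.h697.NN.tail hd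
  have hu : unif d = P d := rfl
  refine ⟨⟨min c₁ c₂, lt_min hc₁ hc₂, fun n hn => ?_, fun n hn y hy hyn => ?_⟩, fun C k hC hk => ?_,
    (main hd).2.2.2⟩
  · rw [hu]
    exact (mul_le_mul_of_nonneg_right (min_le_left _ _) (Real.rpow_nonneg (Nat.cast_nonneg n) _)).trans (h1 n hn)
  · rw [hu]
    have hy0 : 0 < y := by linarith
    refine (div_le_div_of_nonneg_right (min_le_right _ _) (by positivity)).trans (h2 n hn y hy (hyn.trans ?_))
    exact mul_le_mul_of_nonneg_right (min_le_right _ _) (Real.rpow_nonneg (Nat.cast_nonneg n) _)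
  · rw [hu]
    refine ⟨c₂ / (C + 2) ^ (2 * d + 15), by positivity, ?_⟩
    have hγ : (0 : ℝ) < 1 / (2 * (d : ℝ) + 16) := by positivity
    have hlog : ∀ᶠ n : ℕ in atTop, 1 ≤ Real.log n :=
      (Real.tendsto_log_atTop.comp tendsto_natCast_atTop_atTop).eventually_ge_atTop 1
    filter_upwards [log_lt c₂ _ hc₂ hγ (C + 2) k, hlog, eventually_ge_atTop 1] with n h3 h4 h5
    have hl : 1 ≤ Real.log n ^ k := Real.one_le_rpow h4 hk
    have hl0 : 0 < Real.log n ^ k := by linarith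
    rw [abs_of_pos (by linarith)] at h3
    have h6 := h2 n h5 ((C + 2) * Real.log n ^ k) (by nlinarith) (by linarith)
    have hm : MeasurableSet {x : ℕ → Torus d | ((unc x n).card : ℝ) ≤ C * Real.log n ^ k} :=
      measurableSet_le (measurable_card n) measurable_const
    have h7 := probReal_compl_eq_one_sub (μ := P d) hm
    have h8 : (P d).real {x | (C + 2) * Real.log n ^ k ≤ ((unc x n).card : ℝ)} ≤
        (P d).real {x : ℕ → Torus d | ((unc x n).card : ℝ) ≤ C * Real.log n ^ k}ᶜ := by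
      refine measureReal_mono fun x (hx : (C + 2) * Real.log n ^ k ≤ ((unc x n).card : ℝ)) => ?_
      intro (hx2 : ((unc x n).card : ℝ) ≤ C * Real.log n ^ k)
      nlinarith
    have h9 : c₂ / (C + 2) ^ (2 * d + 15) / (Real.log n ^ k) ^ (2 * d + 15) =
        c₂ / ((C + 2) * Real.log n ^ k) ^ (2 * d + 15) := by
      rw [mul_pow, div_div]
    rw [h9]
    linarith

end Pool.Agent.Results.MP_959362_pr.HeavyTails
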